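import Pool.Agent.Helper91.MC9.Spec

/-! MC9 (helper91), part `LIN`. -/

set_option autoImplicit false

namespace Pool.Agent.Helper98.MC9.LIN

open SimpleGraph Pool.Agent.Helper91.MC9

theorem main (hKT : S_KT) : S_LIN := by
  rintro ℋ ⟨H, hH⟩
  refine ⟨2 ^ H.1, fun V _ G hG => ?_⟩
  rcases isEmpty_or_nonempty V with hV | hV
  · have h1 : G.edgeSet = ∅ := by
      ext e
      simp only [Set.mem_empty_iff_false, iff_false]
      induction e using Sym2.ind with
      | _ x y => exact hV.elim x
    rw [h1, Set.ncard_empty]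
    exact Nat.zero_le _
  · by_contra hcon
    push Not at hcon
    obtain ⟨B, hB1, hB2, hB3⟩ := hKT H.1 V G hcon.le
    exact hG H hH ⟨B, hB1, hB2, fun a b hab => hB3 a b ((top_adj a b).2 hab.ne)⟩

end Pool.Agent.Helper98.MC9.LIN
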