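import Pool.Agent.Helper91.MC9.Spec

/-! MC9 (helper91), part `SUMF`. -/

set_option autoImplicit false

namespace Pool.Agent.Helper98.MC9.SUMF

open SimpleGraph Pool.Agent.Helper91.MC9

theorem main (hSPLIT : S_SPLIT) (hEMB : S_EMB) : S_SUMF := by
  intro ℋ hconn V V' G G' hG hG' H hH hm
  obtain ⟨i, hi⟩ := hSPLIT (Fin H.1) (V ⊕ V') Bool H.2 (G ⊕g G') Sum.isLeft (hconn H hH) (by
    rintro (x | x) (y | y) h
    · rfl
    · exact absurd h (by simp)
    · exact absurd h (by simp)
    · rfl) hm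
  cases i with
  | true =>
    have hl : ∀ x : {x : V ⊕ V' | Sum.isLeft x = true}, ∃ v, x.1 = Sum.inl v := by
      rintro ⟨x | x, hx⟩
      · exact ⟨x, rfl⟩
      · exact absurd hx (by simp)
    choose φ hφ using hl
    refine hG H hH (hEMB _ _ _ H.2 _ G φ ?_ ?_ hi)
    · intro x y h
      apply Subtype.ext
      rw [hφ x, hφ y, h]
    · intro x y h
      have h1 : (G ⊕g G').Adj x.1 y.1 := h
      rw [hφ x, hφ y] at h1
      simpa using h1
  | false =>
    have hl : ∀ x : {x : V ⊕ V' | Sum.isLeft x = false}, ∃ v, x.1 = Sum.inr v := by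
      rintro ⟨x | x, hx⟩
      · exact absurd hx (by simp)
      · exact ⟨x, rfl⟩
    choose φ hφ using hl
    refine hG' H hH (hEMB _ _ _ H.2 _ G' φ ?_ ?_ hi)
    · intro x y h
      apply Subtype.ext
      rw [hφ x, hφ y, h]
    · intro x y h
      have h1 : (G ⊕g G').Adj x.1 y.1 := h
      rw [hφ x, hφ y] at h1
      simpa using h1

end Pool.Agent.Helper98.MC9.SUMF
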